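import Mathlib

/-!
# A minimal graph of exponential growth over a domain containing a half-plane
-/

set_option autoImplicit false

namespace Pool.Agent.Results.MP_dd07a5_an.TwoEndedGraph

open Complex Filter Topology Set

/-! ### The notions of the statement -/

/-- The partial derivative `∂u/∂x` at `z = x + iy`. -/
noncomputable def dx (u : ℂ → ℝ) (z : ℂ) : ℝ := fderiv ℝ u z 1

/-- The partial derivative `∂u/∂y` at `z = x + iy`. -/
noncomputable def dy (u : ℂ → ℝ) (z : ℂ) : ℝ := fderiv ℝ u z I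

/-- `√(1 + |∇u|²)` at `z`. -/
noncomputable def areaDensity (u : ℂ → ℝ) (z : ℂ) : ℝ := √(1 + (dx u z) ^ 2 + (dy u z) ^ 2)

/-- `div (∇u / √(1 + |∇u|²))` at `z`. -/
noncomputable def minimalOperator (u : ℂ → ℝ) (z : ℂ) : ℝ :=
  dx (fun w => dx u w / areaDensity u w) z + dy (fun w => dy u w / areaDensity u w) z

/-- `D` is an unbounded plane domain (open and connected). -/
def IsUnboundedDomain (D : Set ℂ) : Prop :=
  IsOpen D ∧ IsConnected D ∧ ¬ Bornology.IsBounded D

/-- `D` contains a half-plane `{z : Re (e^{iθ} z) > a}`. -/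
def ContainsHalfPlane (D : Set ℂ) : Prop :=
  ∃ θ a : ℝ, {z : ℂ | a < (Complex.exp (θ * I) * z).re} ⊆ D

/-- `u` is a solution of problem `(∗)` on `D`. -/
structure IsSolution (D : Set ℂ) (u : ℂ → ℝ) : Prop where
  smooth : ContDiffOn ℝ 2 u D
  cont : ContinuousOn u (closure D)
  eqn : ∀ z ∈ D, minimalOperator u z = 0
  pos : ∀ z ∈ D, 0 < u z
  bdry : ∀ z ∈ frontier D, u z = 0

/-- `M(r) = sup {u z : z ∈ D, |z| = r}`, as an extended real number. -/
noncomputable def maxOnCircle (D : Set ℂ) (u : ℂ → ℝ) (r : ℝ) : EReal :=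
  sSup ((fun z => (u z : EReal)) '' {z : ℂ | z ∈ D ∧ ‖z‖ = r})

/-! ### The parametrization -/

/-- holomorphic function with real part the first coordinate -/
noncomputable def aF (z : ℂ) : ℂ :=
  (5/3) * z + z⁻¹ - (4/3) * I * (log (z + 3 * I) - log (z + I))

/-- holomorphic function with imaginary part the second coordinate -/
noncomputable def bF (z : ℂ) : ℂ :=
  (4/3) * z + (8/3) * I * log z - (4/3) * I * (log (z + 3 * I) + log (z + I))

/-- the horizontal part of the parametrization of the minimal surface -/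
noncomputable def F (z : ℂ) : ℂ := ((aF z).re : ℂ) + ((bF z).im : ℂ) * I

noncomputable def P (z : ℂ) : ℂ := 3 * (z + I) ^ 3 / (z ^ 2 * (z + 3 * I))
noncomputable def Q (z : ℂ) : ℂ := (z - I) ^ 2 * (z + 3 * I) / (3 * z ^ 2 * (z + I))
/-- derivative of `z - 1/z` -/
noncomputable def φ (z : ℂ) : ℂ := 1 + (z ^ 2)⁻¹

/-- upper half plane -/
def H : Set ℂ := {z | 0 < z.im}

lemma isOpen_H : IsOpen H := isOpen_lt continuous_const continuous_im

lemma convex_H : Convex ℝ H := convex_halfSpace_im_gt 0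

lemma ne_zero_of_H {z : ℂ} (hz : z ∈ H) : z ≠ 0 := by
  rintro rfl; simp [H] at hz

lemma add_ne_zero_of_H {z : ℂ} (hz : z ∈ H) {c : ℝ} (hc : 0 ≤ c) : z + c * I ≠ 0 := by
  intro h
  have := congrArg Complex.im h
  simp at this
  have hz' : 0 < z.im := hz
  linarith

lemma add3_ne {z : ℂ} (hz : z ∈ H) : z + 3 * I ≠ 0 := by
  have := add_ne_zero_of_H hz (c := 3) (by norm_num); simpa using this
lemma add1_ne {z : ℂ} (hz : z ∈ H) : z + I ≠ 0 := by
  have := add_ne_zero_of_H hz (c := 1) (by norm_num); simpa using this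

lemma slit_of_H {z : ℂ} (hz : z ∈ H) : z ∈ slitPlane := Or.inr (ne_of_gt hz)

lemma slit1 {z : ℂ} (hz : z ∈ H) : z + I ∈ slitPlane := by
  right; simp; have : 0 < z.im := hz; linarith
lemma slit3 {z : ℂ} (hz : z ∈ H) : z + 3 * I ∈ slitPlane := by
  right; simp; have : 0 < z.im := hz; linarith

lemma I_cube : I ^ 3 = -I := by rw [pow_succ, I_sq]; ring
lemma I_four : I ^ 4 = 1 := by rw [show (4 : ℕ) = 2 * 2 by norm_num, pow_mul, I_sq]; ring

lemma hasStrictDerivAt_aF {z : ℂ} (hz : z ∈ H) :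
    HasStrictDerivAt aF ((P z + Q z) / 2) z := by
  have h0 := ne_zero_of_H hz
  have h1 := add1_ne hz
  have h3 := add3_ne hz
  have hid := hasStrictDerivAt_id z
  have e3 := (hid.add_const (3 * I)).clog (slit3 hz)
  have e1 := (hid.add_const I).clog (slit1 hz)
  have einv := hasStrictDerivAt_inv h0
  have key : HasStrictDerivAt aF _ z :=
    ((hid.const_mul (5/3 : ℂ)).add einv).sub ((e3.sub e1).const_mul ((4/3 : ℂ) * I))
  refine key.congr_deriv ?_
  simp only [id, P, Q]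
  field_simp
  ring_nf
  simp only [I_sq, I_cube, I_four]
  ring

lemma hasStrictDerivAt_bF {z : ℂ} (hz : z ∈ H) :
    HasStrictDerivAt bF ((P z - Q z) / 2) z := by
  have h0 := ne_zero_of_H hz
  have h1 := add1_ne hz
  have h3 := add3_ne hz
  have hid := hasStrictDerivAt_id z
  have e3 := (hid.add_const (3 * I)).clog (slit3 hz)
  have e1 := (hid.add_const I).clog (slit1 hz)
  have e0 := hid.clog (slit_of_H hz)
  have key : HasStrictDerivAt bF _ z :=
    ((hid.const_mul (4/3 : ℂ)).add (e0.const_mul ((8/3 : ℂ) * I))).sub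
      ((e3.add e1).const_mul ((4/3 : ℂ) * I))
  refine key.congr_deriv ?_
  simp only [id, P, Q]
  field_simp
  ring_nf

lemma PQ {z : ℂ} (hz : z ∈ H) : φ z ^ 2 = P z * Q z := by
  have h0 := ne_zero_of_H hz
  have h1 := add1_ne hz
  have h3 := add3_ne hz
  simp only [φ, P, Q]
  field_simp
  ring_nf
  simp only [I_sq, I_four]
  ring


/-- the Jacobian determinant `Re (A conj B)` of the map below -/
noncomputable def jac (A B : ℂ) : ℝ := A.re * B.re + A.im * B.im

lemma jac_eq (p q : ℂ) : jac ((p + q) / 2) ((p - q) / 2) = (normSq p - normSq q) / 4 := by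
  simp [jac, normSq_apply]
  ring

lemma normSq_Q_lt {z : ℂ} (hz : z ∈ H) : normSq (Q z) < normSq (P z) := by
  have h0 := ne_zero_of_H hz
  have h1 := add1_ne hz
  have h3 := add3_ne hz
  have n0 : 0 < normSq z := normSq_pos.2 h0
  have n1 : 0 < normSq (z + I) := normSq_pos.2 h1
  have n3 : 0 < normSq (z + 3 * I) := normSq_pos.2 h3
  simp only [Q, P, map_div₀, map_mul, map_pow]
  have e9 : normSq (3 : ℂ) = 9 := by simp; norm_num
  rw [e9, div_lt_div_iff₀ (by positivity) (by positivity)]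
  have hz' : 0 < z.im := hz
  have l1 : normSq (z - I) < normSq (z + I) := by
    simp [normSq_apply]; nlinarith
  have l3 : normSq (z + 3 * I) ≤ 9 * normSq (z + I) := by
    simp [normSq_apply]; nlinarith [sq_nonneg z.re, sq_nonneg z.im]
  have n2 : 0 ≤ normSq (z - I) := normSq_nonneg _
  have k1 : normSq (z - I) ^ 2 < normSq (z + I) ^ 2 := by gcongr
  have k3 : normSq (z + 3 * I) ^ 2 ≤ (9 * normSq (z + I)) ^ 2 := by gcongr
  have k : normSq (z - I) ^ 2 * normSq (z + 3 * I) ^ 2 < 81 * normSq (z + I) ^ 4 := by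
    calc normSq (z - I) ^ 2 * normSq (z + 3 * I) ^ 2
        ≤ normSq (z - I) ^ 2 * (9 * normSq (z + I)) ^ 2 := by gcongr
      _ < normSq (z + I) ^ 2 * (9 * normSq (z + I)) ^ 2 := by gcongr
      _ = 81 * normSq (z + I) ^ 4 := by ring
  have := mul_lt_mul_of_pos_right k (show 0 < normSq z ^ 2 by positivity)
  nlinarith

lemma jac_pos {z : ℂ} (hz : z ∈ H) : 0 < jac ((P z + Q z) / 2) ((P z - Q z) / 2) := by
  rw [jac_eq]
  linarith [normSq_Q_lt hz]

/-- the real linear map `v ↦ (Re (A v), Im (B v))` -/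
noncomputable def linMap (A B : ℂ) : ℂ →ₗ[ℝ] ℂ where
  toFun v := ((A * v).re : ℂ) + ((B * v).im : ℂ) * I
  map_add' v w := by simp [mul_add]; ring
  map_smul' r v := by
    apply Complex.ext <;> simp <;> ring

/-- its inverse -/
noncomputable def linInv (A B : ℂ) : ℂ →ₗ[ℝ] ℂ where
  toFun w := (((B.re * w.re + A.im * w.im) / jac A B : ℝ) : ℂ) +
    (((- B.im * w.re + A.re * w.im) / jac A B : ℝ) : ℂ) * I
  map_add' v w := by
    apply Complex.ext <;> simp <;> ring
  map_smul' r v := by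
    apply Complex.ext <;> simp <;> ring

/-- as an equivalence -/
noncomputable def linEquiv (A B : ℂ) (h : jac A B ≠ 0) : ℂ ≃L[ℝ] ℂ :=
  (LinearEquiv.ofLinearMap (linMap A B) (linInv A B)
    (by
      apply LinearMap.ext
      intro w
      have hJ : jac A B = A.re * B.re + A.im * B.im := rfl
      simp only [linMap, linInv, LinearMap.coe_comp, LinearMap.coe_mk, AddHom.coe_mk,
        Function.comp_apply, LinearMap.id_coe, id_eq]
      apply Complex.ext
      · simp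
        field_simp
        rw [hJ]
        ring
      · simp
        field_simp
        rw [hJ]
        ring)
    (by
      apply LinearMap.ext
      intro w
      have hJ : jac A B = A.re * B.re + A.im * B.im := rfl
      simp only [linMap, linInv, LinearMap.coe_comp, LinearMap.coe_mk, AddHom.coe_mk,
        Function.comp_apply, LinearMap.id_coe, id_eq]
      apply Complex.ext
      · simp
        field_simp
        rw [hJ]
        ring
      · simp
        field_simp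
        rw [hJ]
        ring)).toContinuousLinearEquiv

lemma linEquiv_apply (A B : ℂ) (h : jac A B ≠ 0) (v : ℂ) :
    linEquiv A B h v = ((A * v).re : ℂ) + ((B * v).im : ℂ) * I := rfl

lemma linEquiv_symm_apply (A B : ℂ) (h : jac A B ≠ 0) (w : ℂ) :
    (linEquiv A B h).symm w = (((B.re * w.re + A.im * w.im) / jac A B : ℝ) : ℂ) +
    (((- B.im * w.re + A.re * w.im) / jac A B : ℝ) : ℂ) * I := rfl

lemma hasStrictFDerivAt_F {z : ℂ} (hz : z ∈ H) :
    HasStrictFDerivAt F (linEquiv _ _ (jac_pos hz).ne' : ℂ →L[ℝ] ℂ) z := by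
  have h1 := (hasStrictDerivAt_aF hz).complexToReal_fderiv
  have h2 := (hasStrictDerivAt_bF hz).complexToReal_fderiv
  have h3 := reCLM.hasStrictFDerivAt.comp z h1
  have h4 := imCLM.hasStrictFDerivAt.comp z h2
  have h5 := (ofRealCLM.hasStrictFDerivAt.comp z h3).add
    ((ofRealCLM.hasStrictFDerivAt.comp z h4).mul_const I)
  refine h5.congr_fderiv ?_
  apply ContinuousLinearMap.ext
  intro v
  simp [linEquiv_apply]
  ring

lemma contDiffAt_F {z : ℂ} (hz : z ∈ H) : ContDiffAt ℝ 3 F z := by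
  have ha : ContDiffAt ℂ 3 aF z := by
    have : DifferentiableOn ℂ aF H := fun w hw =>
      (hasStrictDerivAt_aF hw).hasDerivAt.differentiableAt.differentiableWithinAt
    exact (this.analyticAt (isOpen_H.mem_nhds hz)).contDiffAt
  have hb : ContDiffAt ℂ 3 bF z := by
    have : DifferentiableOn ℂ bF H := fun w hw =>
      (hasStrictDerivAt_bF hw).hasDerivAt.differentiableAt.differentiableWithinAt
    exact (this.analyticAt (isOpen_H.mem_nhds hz)).contDiffAt
  have ha' := ha.restrict_scalars ℝ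
  have hb' := hb.restrict_scalars ℝ
  have h3 : ContDiffAt ℝ 3 (fun z => ((aF z).re : ℂ)) z :=
    (ofRealCLM.contDiff.contDiffAt.comp z (reCLM.contDiff.contDiffAt.comp z ha'))
  have h4 : ContDiffAt ℝ 3 (fun z => ((bF z).im : ℂ)) z :=
    (ofRealCLM.contDiff.contDiffAt.comp z (imCLM.contDiff.contDiffAt.comp z hb'))
  exact h3.add (h4.mul contDiffAt_const)

/-! ### The local inverse and the functions `u`, `V` -/

/-- inverse of `F` on `H` -/
noncomputable def g : ℂ → ℂ := Function.invFunOn F H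

lemma g_mem {w : ℂ} (hw : w ∈ F '' H) : g w ∈ H := Function.invFunOn_mem hw
lemma F_g {w : ℂ} (hw : w ∈ F '' H) : F (g w) = w := Function.invFunOn_eq hw
lemma g_F (hinj : InjOn F H) {z : ℂ} (hz : z ∈ H) : g (F z) = z :=
  hinj (g_mem ⟨z, hz, rfl⟩) hz (F_g ⟨z, hz, rfl⟩)

lemma g_local (hinj : InjOn F H) {z : ℂ} (hz : z ∈ H) :
    (hasStrictFDerivAt_F hz).localInverse F _ z =ᶠ[𝓝 (F z)] g := by
  have h1 := (hasStrictFDerivAt_F hz).eventually_right_inverse
  have h2 : Tendsto ((hasStrictFDerivAt_F hz).localInverse F _ z) (𝓝 (F z)) (𝓝 z) := by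
    have := (hasStrictFDerivAt_F hz).localInverse_continuousAt
    rw [ContinuousAt, (hasStrictFDerivAt_F hz).localInverse_apply_image] at this
    exact this
  have h3 := h2.eventually (isOpen_H.mem_nhds hz)
  filter_upwards [h1, h3] with w hw1 hw2
  have hw : w ∈ F '' H := ⟨_, hw2, hw1⟩
  exact hinj hw2 (g_mem hw) (hw1.trans (F_g hw).symm)

lemma hasFDerivAt_g (hinj : InjOn F H) {z : ℂ} (hz : z ∈ H) :
    HasFDerivAt g ((linEquiv _ _ (jac_pos hz).ne').symm : ℂ →L[ℝ] ℂ) (F z) :=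
  (hasStrictFDerivAt_F hz).to_localInverse.hasFDerivAt.congr_of_eventuallyEq
    (g_local hinj hz).symm

lemma contDiffAt_g (hinj : InjOn F H) {z : ℂ} (hz : z ∈ H) : ContDiffAt ℝ 3 g (F z) := by
  have h := (contDiffAt_F hz).to_localInverse (hasStrictFDerivAt_F hz).hasFDerivAt (by norm_num)
  refine h.congr_of_eventuallyEq ?_
  exact (g_local hinj hz).symm

/-- the function `z - 1/z` -/
noncomputable def Phi (z : ℂ) : ℂ := z - z⁻¹

lemma hasDerivAt_Phi {z : ℂ} (hz : z ∈ H) : HasDerivAt Phi (φ z) z := by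
  have h := (hasDerivAt_id z).sub (hasDerivAt_inv (ne_zero_of_H hz))
  refine h.congr_deriv ?_
  simp [φ]

/-- the domain -/
def D : Set ℂ := F '' H

/-- the solution -/
noncomputable def u (w : ℂ) : ℝ := by
  classical exact if w ∈ D then (Phi (g w)).im else 0

/-- the conjugate function -/
noncomputable def V (w : ℂ) : ℝ := -(Phi (g w)).re

lemma isOpen_D : IsOpen D := by
  rw [isOpen_iff_mem_nhds]
  rintro w ⟨z, hz, rfl⟩
  have h1 := (hasStrictFDerivAt_F hz).map_nhds_eq_of_equiv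
  rw [← h1]
  exact image_mem_map (isOpen_H.mem_nhds hz)

lemma u_eventually {w : ℂ} (hw : w ∈ D) : u =ᶠ[𝓝 w] fun w => (Phi (g w)).im := by
  filter_upwards [isOpen_D.mem_nhds hw] with v hv
  simp [u, hv]

lemma hasFDerivAt_Phi_g (hinj : InjOn F H) {z : ℂ} (hz : z ∈ H) :
    HasFDerivAt (fun w => Phi (g w))
      ((φ z • (1 : ℂ →L[ℝ] ℂ)).comp
        ((linEquiv _ _ (jac_pos hz).ne').symm : ℂ →L[ℝ] ℂ)) (F z) := by
  have h1 : HasFDerivAt Phi (φ z • (1 : ℂ →L[ℝ] ℂ)) (g (F z)) := by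
    rw [g_F hinj hz]
    exact (hasDerivAt_Phi hz).complexToReal_fderiv
  exact h1.comp (F z) (hasFDerivAt_g hinj hz)

lemma fderiv_u (hinj : InjOn F H) {z : ℂ} (hz : z ∈ H) (v : ℂ) :
    fderiv ℝ u (F z) v = (φ z * (linEquiv _ _ (jac_pos hz).ne').symm v).im := by
  have h := (imCLM.hasFDerivAt.comp (F z) (hasFDerivAt_Phi_g hinj hz)).congr_of_eventuallyEq
    (u_eventually ⟨z, hz, rfl⟩)
  rw [h.fderiv]
  simp

lemma fderiv_V (hinj : InjOn F H) {z : ℂ} (hz : z ∈ H) (v : ℂ) :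
    fderiv ℝ V (F z) v = -(φ z * (linEquiv _ _ (jac_pos hz).ne').symm v).re := by
  have h : HasFDerivAt V _ (F z) := (reCLM.hasFDerivAt.comp (F z) (hasFDerivAt_Phi_g hinj hz)).neg
  rw [h.fderiv]
  simp

/-! ### The minimal surface equation -/

lemma alg {p1 p2 q1 q2 f1 f2 n m : ℝ} (hn : 0 < n)
    (h1 : f1 ^ 2 - f2 ^ 2 = p1 * q1 - p2 * q2) (h2 : 2 * f1 * f2 = p1 * q2 + p2 * q1)
    (hnn : n ^ 2 = p1 ^ 2 + p2 ^ 2) (hnm : n * m = f1 ^ 2 + f2 ^ 2) :
    m * (f1 * p1 + f2 * p2) = n * (f1 * q1 + f2 * q2) ∧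
    m * (f2 * p1 - f1 * p2) = - (n * (f2 * q1 - f1 * q2)) := by
  constructor
  · apply mul_left_cancel₀ hn.ne'
    linear_combination (f1 * p1 + f2 * p2) * hnm + (f1 * q1 + f2 * q2) * (-hnn) +
      (p1 * f1 - p2 * f2) * h1 + (p1 * f2 + p2 * f1) * h2
  · apply mul_left_cancel₀ hn.ne'
    linear_combination (f2 * p1 - f1 * p2) * hnm + (f2 * q1 - f1 * q2) * (hnn) +
      (-(p1 * f2 + p2 * f1)) * h1 + (p1 * f1 - p2 * f2) * h2

lemma alg2 {p1 p2 q1 q2 f1 f2 n m : ℝ} (hn : 0 < n) (hm : 0 ≤ m)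
    (h1 : f1 ^ 2 - f2 ^ 2 = p1 * q1 - p2 * q2) (h2 : 2 * f1 * f2 = p1 * q2 + p2 * q1)
    (hnn : n ^ 2 = p1 ^ 2 + p2 ^ 2) (hmm : m ^ 2 = q1 ^ 2 + q2 ^ 2)
    (hnm : n * m = f1 ^ 2 + f2 ^ 2) (hJ : 0 < (n ^ 2 - m ^ 2) / 4) :
    let J := (n ^ 2 - m ^ 2) / 4
    let a1 := (p1 + q1) / 2
    let a2 := (p2 + q2) / 2
    let b1 := (p1 - q1) / 2
    let b2 := (p2 - q2) / 2
    √(1 + ((f2 * b1 - f1 * b2) / J) ^ 2 + ((f1 * a1 + f2 * a2) / J) ^ 2) = (n + m) ^ 2 / (4 * J) ∧
    ((f2 * b1 - f1 * b2) / J) / ((n + m) ^ 2 / (4 * J)) = (f2 * a1 - f1 * a2) / J ∧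
    ((f1 * a1 + f2 * a2) / J) / ((n + m) ^ 2 / (4 * J)) = (f1 * b1 + f2 * b2) / J := by
  intro J a1 a2 b1 b2
  obtain ⟨k1, k2⟩ := alg hn h1 h2 hnn hnm
  have hnm' : 0 < n + m := by linarith
  have hnm2 : n - m ≠ 0 := by
    intro h0
    have : n ^ 2 - m ^ 2 = 0 := by
      have : n = m := by linarith
      rw [this]; ring
    rw [this] at hJ; norm_num at hJ
  have hJ' : J = (n - m) * (n + m) / 4 := by simp only [J]; ring
  have hJ0 : 0 < J := hJ
  have hnm0 : n + m ≠ 0 := hnm'.ne'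
  refine ⟨?_, ?_, ?_⟩
  · have e1 : (f2 * p1 - f1 * p2) ^ 2 + (f1 * p1 + f2 * p2) ^ 2 = n ^ 3 * m := by
      have : (f2 * p1 - f1 * p2) ^ 2 + (f1 * p1 + f2 * p2) ^ 2 =
        (f1 ^ 2 + f2 ^ 2) * (p1 ^ 2 + p2 ^ 2) := by ring
      rw [this, ← hnm, ← hnn]; ring
    have e2 : (f2 * q1 - f1 * q2) ^ 2 + (f1 * q1 + f2 * q2) ^ 2 = n * m ^ 3 := by
      have : (f2 * q1 - f1 * q2) ^ 2 + (f1 * q1 + f2 * q2) ^ 2 =
        (f1 ^ 2 + f2 ^ 2) * (q1 ^ 2 + q2 ^ 2) := by ring
      rw [this, ← hnm, ← hmm]; ring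
    have e3 : (f1 * p1 + f2 * p2) * (f1 * q1 + f2 * q2) -
        (f2 * p1 - f1 * p2) * (f2 * q1 - f1 * q2) = n ^ 2 * m ^ 2 := by
      have : (f1 * p1 + f2 * p2) * (f1 * q1 + f2 * q2) -
        (f2 * p1 - f1 * p2) * (f2 * q1 - f1 * q2) =
        (f1 ^ 2 - f2 ^ 2) * (p1 * q1 - p2 * q2) + (2 * f1 * f2) * (p1 * q2 + p2 * q1) := by ring
      rw [this, h1, h2, hnn, hmm]; ring
    have key : 1 + ((f2 * b1 - f1 * b2) / J) ^ 2 + ((f1 * a1 + f2 * a2) / J) ^ 2 =
        ((n + m) ^ 2 / (4 * J)) ^ 2 := by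
      have hJ1 : J ≠ 0 := hJ0.ne'
      have hsum : 16 * J ^ 2 + 16 * (f2 * b1 - f1 * b2) ^ 2 + 16 * (f1 * a1 + f2 * a2) ^ 2 =
          (n + m) ^ 4 := by
        simp only [J, a1, a2, b1, b2]
        linear_combination 4 * e1 + 4 * e2 + 8 * e3
      field_simp
      linear_combination hsum
    rw [key, Real.sqrt_sq (by positivity)]
  · have hJ1 : J ≠ 0 := hJ0.ne'
    have e : (f2 * b1 - f1 * b2) * (n - m) = (f2 * a1 - f1 * a2) * (n + m) := by
      simp only [a1, a2, b1, b2]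
      linear_combination (-1) * k2
    rw [div_div_div_eq, div_eq_div_iff (by positivity) (by positivity), hJ']
    linear_combination (J * (n + m) * 4 / 4) * e
  · have hJ1 : J ≠ 0 := hJ0.ne'
    have e : (f1 * a1 + f2 * a2) * (n - m) = (f1 * b1 + f2 * b2) * (n + m) := by
      simp only [a1, a2, b1, b2]
      linear_combination (-1) * k1
    rw [div_div_div_eq, div_eq_div_iff (by positivity) (by positivity), hJ']
    linear_combination (J * (n + m) * 4 / 4) * e

lemma mk_im (f : ℂ) (r s : ℝ) : (f * ((r : ℂ) + (s : ℂ) * I)).im = f.im * r + f.re * s := by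
  simp; ring
lemma mk_re (f : ℂ) (r s : ℝ) : (f * ((r : ℂ) + (s : ℂ) * I)).re = f.re * r - f.im * s := by
  simp

lemma grad_identities (hinj : InjOn F H) {w : ℂ} (hw : w ∈ D) :
    dx u w / areaDensity u w = dy V w ∧ dy u w / areaDensity u w = - dx V w := by
  obtain ⟨z, hz, rfl⟩ := hw
  have hPQ := PQ hz
  have hlt := normSq_Q_lt hz
  have hre := congrArg Complex.re hPQ
  have him := congrArg Complex.im hPQ
  rw [pow_two] at hre him
  simp only [mul_re, mul_im] at hre him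
  have hP : ‖P z‖ ^ 2 = (P z).re ^ 2 + (P z).im ^ 2 := by
    rw [← normSq_eq_norm_sq, normSq_apply]; ring
  have hQ : ‖Q z‖ ^ 2 = (Q z).re ^ 2 + (Q z).im ^ 2 := by
    rw [← normSq_eq_norm_sq, normSq_apply]; ring
  have hφ : ‖P z‖ * ‖Q z‖ = (φ z).re ^ 2 + (φ z).im ^ 2 := by
    rw [← norm_mul, ← hPQ, norm_pow, ← normSq_eq_norm_sq, normSq_apply]; ring
  have hPpos : 0 < ‖P z‖ := by
    rw [norm_pos_iff]
    intro h0
    rw [h0] at hlt
    simp only [map_zero] at hlt
    linarith [normSq_nonneg (Q z)]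
  have hJ : 0 < (‖P z‖ ^ 2 - ‖Q z‖ ^ 2) / 4 := by
    rw [← normSq_eq_norm_sq, ← normSq_eq_norm_sq]; linarith
  obtain ⟨a1, a2, a3⟩ := alg2 (p1 := (P z).re) (p2 := (P z).im) (q1 := (Q z).re) (q2 := (Q z).im)
    (f1 := (φ z).re) (f2 := (φ z).im) hPpos (norm_nonneg (Q z))
    (by linarith) (by linarith) hP hQ hφ hJ
  have hjac : jac ((P z + Q z) / 2) ((P z - Q z) / 2) = (‖P z‖ ^ 2 - ‖Q z‖ ^ 2) / 4 := by
    rw [jac_eq, normSq_eq_norm_sq, normSq_eq_norm_sq]
  have d1 : dx u (F z) = ((φ z).im * (((P z).re - (Q z).re) / 2) -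
      (φ z).re * (((P z).im - (Q z).im) / 2)) / ((‖P z‖ ^ 2 - ‖Q z‖ ^ 2) / 4) := by
    rw [dx, fderiv_u hinj hz, linEquiv_symm_apply, hjac, mk_im]
    simp
    ring
  have d2 : dy u (F z) = ((φ z).re * (((P z).re + (Q z).re) / 2) +
      (φ z).im * (((P z).im + (Q z).im) / 2)) / ((‖P z‖ ^ 2 - ‖Q z‖ ^ 2) / 4) := by
    rw [dy, fderiv_u hinj hz, linEquiv_symm_apply, hjac, mk_im]
    simp
    ring
  have d3 : dx V (F z) = -(((φ z).re * (((P z).re - (Q z).re) / 2) +
      (φ z).im * (((P z).im - (Q z).im) / 2)) / ((‖P z‖ ^ 2 - ‖Q z‖ ^ 2) / 4)) := by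
    rw [dx, fderiv_V hinj hz, linEquiv_symm_apply, hjac, mk_re]
    simp
    ring
  have d4 : dy V (F z) = ((φ z).im * (((P z).re + (Q z).re) / 2) -
      (φ z).re * (((P z).im + (Q z).im) / 2)) / ((‖P z‖ ^ 2 - ‖Q z‖ ^ 2) / 4) := by
    rw [dy, fderiv_V hinj hz, linEquiv_symm_apply, hjac, mk_re]
    simp
    ring
  have harea : areaDensity u (F z) = (‖P z‖ + ‖Q z‖) ^ 2 / (4 * ((‖P z‖ ^ 2 - ‖Q z‖ ^ 2) / 4)) := by
    rw [areaDensity, d1, d2]
    exact a1
  rw [harea, d1, d2, d3, d4, neg_neg]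
  exact ⟨a2, a3⟩

lemma minimal_u (hinj : InjOn F H) {w : ℂ} (hw : w ∈ D) : minimalOperator u w = 0 := by
  have hnh := isOpen_D.mem_nhds hw
  have e1 : (fun v => dx u v / areaDensity u v) =ᶠ[𝓝 w] fun v => fderiv ℝ V v I := by
    filter_upwards [hnh] with v hv
    exact (grad_identities hinj hv).1
  have e2 : (fun v => dy u v / areaDensity u v) =ᶠ[𝓝 w] fun v => -fderiv ℝ V v 1 := by
    filter_upwards [hnh] with v hv
    exact (grad_identities hinj hv).2
  have hV : ContDiffAt ℝ 3 V w := by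
    obtain ⟨z, hz, rfl⟩ := hw
    have h1 : ContDiffAt ℝ 3 Phi (g (F z)) := by
      rw [g_F hinj hz]
      have : ContDiffAt ℂ 3 Phi z := contDiffAt_id.sub (contDiffAt_inv ℂ (ne_zero_of_H hz))
      exact this.restrict_scalars ℝ
    have h2 := h1.comp (F z) (contDiffAt_g hinj hz)
    exact (reCLM.contDiff.contDiffAt.comp (F z) h2).neg
  have hsym := hV.isSymmSndFDerivAt (by simp; norm_num)
  have hdiff : DifferentiableAt ℝ (fderiv ℝ V) w :=
    (hV.fderiv_right (m := 1) (by norm_num)).differentiableAt (by norm_num)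
  unfold minimalOperator
  rw [dx, dy, e1.fderiv_eq, e2.fderiv_eq]
  have k1 : HasFDerivAt (fun v => fderiv ℝ V v I)
      ((ContinuousLinearMap.apply ℝ ℝ I).comp (fderiv ℝ (fderiv ℝ V) w)) w :=
    (ContinuousLinearMap.apply ℝ ℝ I).hasFDerivAt.comp w hdiff.hasFDerivAt
  have k2 : HasFDerivAt (fun v => -fderiv ℝ V v 1)
      (-((ContinuousLinearMap.apply ℝ ℝ (1 : ℂ)).comp (fderiv ℝ (fderiv ℝ V) w))) w :=
    ((ContinuousLinearMap.apply ℝ ℝ (1 : ℂ)).hasFDerivAt.comp w hdiff.hasFDerivAt).neg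
  rw [k1.fderiv, k2.fderiv]
  have := hsym 1 I
  simp [this]

/-! ### Estimates -/

lemma F_re (z : ℂ) : (F z).re = (5/3) * z.re + (z⁻¹).re + (4/3) * (arg (z + 3 * I) - arg (z + I)) := by
  have h1 : (log (z + 3 * I)).im = arg (z + 3 * I) := log_im _
  have h2 : (log (z + I)).im = arg (z + I) := log_im _
  simp only [F, aF, add_re, ofReal_re, mul_re, ofReal_im, I_re, I_im, sub_re, mul_im, sub_im, h1, h2]
  simp

/-- the level function -/
noncomputable def lev (z : ℂ) : ℝ :=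
  z.im + 2 * Real.log ‖z‖ - Real.log ‖z + 3 * I‖ - Real.log ‖z + I‖

lemma F_im (z : ℂ) : (F z).im = (4/3) * lev z := by
  have h0 : (log z).re = Real.log ‖z‖ := log_re _
  have h1 : (log (z + 3 * I)).re = Real.log ‖z + 3 * I‖ := log_re _
  have h2 : (log (z + I)).re = Real.log ‖z + I‖ := log_re _
  simp only [F, bF, add_im, ofReal_im, mul_im, mul_re, ofReal_re, I_re, I_im, sub_im, add_re, h0, h1, h2, lev]
  simp
  ring

lemma norm_add_ge {z : ℂ} (hz : 0 ≤ z.im) {c : ℝ} : c ≤ ‖z + c * I‖ := by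
  calc c ≤ z.im + c := by linarith
    _ = (z + c * I).im := by simp
    _ ≤ ‖z + c * I‖ := im_le_norm _

lemma norm_add3 {z : ℂ} (hz : 0 ≤ z.im) : 3 ≤ ‖z + 3 * I‖ := by
  simpa using norm_add_ge hz (c := 3)
lemma norm_add1 {z : ℂ} (hz : 0 ≤ z.im) : 1 ≤ ‖z + I‖ := by
  simpa using norm_add_ge hz (c := 1)

lemma lev_le {z : ℂ} (hz : 0 ≤ z.im) : lev z ≤ ‖z‖ + 2 * Real.log ‖z‖ := by
  have h1 : 0 ≤ Real.log ‖z + 3 * I‖ := Real.log_nonneg (by linarith [norm_add3 hz])
  have h2 : 0 ≤ Real.log ‖z + I‖ := Real.log_nonneg (norm_add1 hz)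
  have h3 := im_le_norm z
  unfold lev
  linarith

lemma le_lev {z : ℂ} (hz : 0 ≤ z.im) (h1 : 1 ≤ ‖z‖) : z.im - 5 ≤ lev z := by
  have a1 : ‖z + 3 * I‖ ≤ 4 * ‖z‖ := by
    calc ‖z + 3 * I‖ ≤ ‖z‖ + ‖3 * I‖ := norm_add_le _ _
      _ = ‖z‖ + 3 := by simp
      _ ≤ 4 * ‖z‖ := by linarith
  have a2 : ‖z + I‖ ≤ 2 * ‖z‖ := by
    calc ‖z + I‖ ≤ ‖z‖ + ‖I‖ := norm_add_le _ _
      _ = ‖z‖ + 1 := by simp
      _ ≤ 2 * ‖z‖ := by linarith
  have b1 : Real.log ‖z + 3 * I‖ ≤ 3 + Real.log ‖z‖ := by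
    have := Real.log_le_log (by linarith [norm_add3 hz]) a1
    rw [Real.log_mul (by norm_num) (by linarith)] at this
    linarith [Real.log_le_sub_one_of_pos (show (0 : ℝ) < 4 by norm_num)]
  have b2 : Real.log ‖z + I‖ ≤ 1 + Real.log ‖z‖ := by
    have := Real.log_le_log (by linarith [norm_add1 hz]) a2
    rw [Real.log_mul (by norm_num) (by linarith)] at this
    linarith [Real.log_le_sub_one_of_pos (show (0 : ℝ) < 2 by norm_num)]
  unfold lev
  linarith

lemma proper (R : ℝ) : ∃ δ > 0, ∃ M, ∀ z ∈ H, ‖F z‖ ≤ R → δ ≤ ‖z‖ ∧ ‖z‖ ≤ M := by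
  refine ⟨min 1 (Real.exp (-(R + 1))), by positivity, 1 + ((R + 20) + (R + 5)), ?_⟩
  intro z hz hF
  have hz' : 0 < z.im := hz
  have hR : 0 ≤ R := (norm_nonneg _).trans hF
  have him := (abs_im_le_norm (F z)).trans hF
  have hre := (abs_re_le_norm (F z)).trans hF
  rw [F_im, abs_le] at him
  rw [F_re, abs_le] at hre
  have hz0 : 0 < ‖z‖ := norm_pos_iff.2 (ne_zero_of_H hz)
  constructor
  · by_cases h1 : ‖z‖ ≤ 1
    · apply (min_le_right _ _).trans
      have := lev_le hz'.le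
      have h2 : -(R + 1) ≤ Real.log ‖z‖ := by linarith
      calc Real.exp (-(R + 1)) ≤ Real.exp (Real.log ‖z‖) := Real.exp_le_exp.2 h2
        _ = ‖z‖ := Real.exp_log hz0
    · exact (min_le_left _ _).trans (not_le.1 h1).le
  · by_cases h1 : 1 ≤ ‖z‖
    · have h2 := le_lev hz'.le h1
      have h3 : |(z⁻¹).re| ≤ 1 := by
        refine (abs_re_le_norm _).trans ?_
        rw [norm_inv]
        exact inv_le_one_of_one_le₀ h1
      have h4 := abs_le.1 (abs_arg_le_pi (z + 3 * I))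
      have h5 := abs_le.1 (abs_arg_le_pi (z + I))
      have h6 := Real.pi_lt_four
      rw [abs_le] at h3
      have h7 : |z.re| ≤ R + 20 := by
        rw [abs_le]; constructor <;> linarith
      have h8 : |z.im| ≤ R + 5 := by
        rw [abs_le]; constructor <;> linarith
      linarith [norm_le_abs_re_add_abs_im z]
    · linarith [not_le.1 h1]

lemma lev_neg {z : ℂ} (hz : z.im = 0) (h0 : z ≠ 0) : lev z < 0 := by
  have hz0 : 0 < ‖z‖ := norm_pos_iff.2 h0
  have key : ∀ c : ℝ, 0 < c → ‖z‖ < ‖z + c * I‖ := by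
    intro c hc
    rw [← sq_lt_sq₀ (norm_nonneg _) (norm_nonneg _), ← normSq_eq_norm_sq, ← normSq_eq_norm_sq,
      normSq_apply, normSq_apply]
    simp [hz]
    positivity
  have k1 := key 1 one_pos
  have k3 := key 3 (by norm_num)
  simp only [ofReal_one, one_mul, ofReal_ofNat] at k1 k3
  have l1 := Real.log_lt_log hz0 k1
  have l3 := Real.log_lt_log hz0 k3
  unfold lev
  rw [hz]
  linarith

lemma continuousOn_lev : ContinuousOn lev {z | 0 ≤ z.im ∧ z ≠ 0} := by
  unfold lev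
  intro z hz
  apply ContinuousAt.continuousWithinAt
  have h0 : ‖z‖ ≠ 0 := norm_ne_zero_iff.2 hz.2
  have h1 : ‖z + 3 * I‖ ≠ 0 := by linarith [norm_add3 hz.1]
  have h2 : ‖z + I‖ ≠ 0 := by linarith [norm_add1 hz.1]
  fun_prop (disch := assumption)

lemma continuousOn_F : ContinuousOn F {z | 0 ≤ z.im ∧ z ≠ 0} := by
  have e : F = fun z => (((5/3) * z.re + (z⁻¹).re + (4/3) * (arg (z + 3 * I) - arg (z + I)) : ℝ) : ℂ)
      + (((4/3) * lev z : ℝ) : ℂ) * I := by
    funext z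
    rw [← F_re, ← F_im, re_add_im]
  rw [e]
  apply ContinuousOn.add
  · intro z hz
    apply ContinuousAt.continuousWithinAt
    have h3 : ContinuousAt (fun z => arg (z + 3 * I)) z := by
      apply ContinuousAt.comp (g := arg) (f := fun z => z + 3 * I)
      · apply continuousAt_arg
        right
        simp
        have := hz.1
        linarith
      · fun_prop
    have h1 : ContinuousAt (fun z => arg (z + I)) z := by
      apply ContinuousAt.comp (g := arg) (f := fun z => z + I)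
      · apply continuousAt_arg
        right
        simp
        have := hz.1
        linarith
      · fun_prop
    have h2 : ContinuousAt (fun z : ℂ => (z⁻¹).re) z :=
      continuous_re.continuousAt.comp (continuousAt_inv₀ hz.2)
    fun_prop
  · have := continuousOn_lev
    fun_prop

/-! ### Consequences of properness -/

/-- compact pieces of the closed half plane minus the origin -/
def K (δ M : ℝ) : Set ℂ := {z | 0 ≤ z.im ∧ δ ≤ ‖z‖ ∧ ‖z‖ ≤ M}

lemma isCompact_K (δ M : ℝ) : IsCompact (K δ M) := by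
  have h1 : IsClosed (K δ M) := by
    have a1 : IsClosed {z : ℂ | 0 ≤ z.im} := isClosed_le continuous_const continuous_im
    have a2 : IsClosed {z : ℂ | δ ≤ ‖z‖} := isClosed_le continuous_const continuous_norm
    have a3 : IsClosed {z : ℂ | ‖z‖ ≤ M} := isClosed_le continuous_norm continuous_const
    exact a1.inter (a2.inter a3)
  apply (isCompact_closedBall (0 : ℂ) M).of_isClosed_subset h1
  intro z hz
  simpa using hz.2.2

lemma K_subset {δ M : ℝ} (hδ : 0 < δ) : K δ M ⊆ {z | 0 ≤ z.im ∧ z ≠ 0} := by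
  intro z hz
  refine ⟨hz.1, ?_⟩
  rintro rfl
  have := hz.2.1
  simp at this
  linarith

lemma im_Phi (z : ℂ) : (Phi z).im = z.im + z.im / normSq z := by
  simp [Phi, inv_im]
  ring

lemma im_Phi_pos {z : ℂ} (hz : z ∈ H) : 0 < (Phi z).im := by
  rw [im_Phi]
  have hz' : 0 < z.im := hz
  have := normSq_pos.2 (ne_zero_of_H hz)
  positivity

lemma continuous_u_off {w : ℂ} (hw : w ∉ D) : ContinuousAt u w := by
  have hu : u w = 0 := by simp [u, hw]
  rw [ContinuousAt, hu, Metric.tendsto_nhds]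
  intro ε hε
  obtain ⟨δ, hδ, M, hM⟩ := proper (‖w‖ + 1)
  have hcont : ContinuousOn (fun z => (Phi z).im) (K δ M) := by
    intro z hz
    have hz0 := (K_subset hδ hz).2
    apply ContinuousAt.continuousWithinAt
    exact continuous_im.continuousAt.comp (continuousAt_id.sub (continuousAt_inv₀ hz0))
  have hS : IsCompact (K δ M ∩ (fun z => (Phi z).im) ⁻¹' (Ici ε)) :=
    (isCompact_K δ M).of_isClosed_subset
      (hcont.preimage_isClosed_of_isClosed (isCompact_K δ M).isClosed isClosed_Ici)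
      inter_subset_left
  have hFS : IsCompact (F '' (K δ M ∩ (fun z => (Phi z).im) ⁻¹' (Ici ε))) :=
    hS.image_of_continuousOn (continuousOn_F.mono (inter_subset_left.trans (K_subset hδ)))
  have hnot : w ∉ F '' (K δ M ∩ (fun z => (Phi z).im) ⁻¹' (Ici ε)) := by
    rintro ⟨z, ⟨hzK, hz2⟩, hz3⟩
    apply hw
    refine ⟨z, ?_, hz3⟩
    have h1 : ε ≤ (Phi z).im := hz2
    rcases hzK.1.lt_or_eq with h | h
    · exact h
    · rw [im_Phi, ← h] at h1
      simp at h1
      linarith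
  have h1 := hFS.isClosed.isOpen_compl.mem_nhds hnot
  have h2 : {v : ℂ | ‖v‖ < ‖w‖ + 1} ∈ 𝓝 w := by
    apply (isOpen_lt continuous_norm continuous_const).mem_nhds
    simp
  filter_upwards [h1, h2] with v hv1 hv2
  by_cases hvD : v ∈ D
  · have hgv := g_mem hvD
    have hFg := F_g hvD
    have hb := hM (g v) hgv (by rw [hFg]; exact (le_of_lt hv2))
    have huv : u v = (Phi (g v)).im := by simp [u, hvD]
    have hpos := im_Phi_pos hgv
    rw [huv, Real.dist_eq, sub_zero, abs_of_pos hpos]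
    by_contra hcon
    exact hv1 ⟨g v, ⟨⟨le_of_lt hgv, hb⟩, not_lt.1 hcon⟩, hFg⟩
  · have huv : u v = 0 := by simp [u, hvD]
    simpa [huv] using hε

lemma convex_F_image : IsConnected D := by
  have : ContinuousOn F H := continuousOn_F.mono fun z hz => ⟨le_of_lt hz, ne_zero_of_H hz⟩
  exact ⟨⟨F I, I, by simp [H], rfl⟩, convex_H.isPreconnected.image F this⟩

lemma halfplane_subset : H ⊆ D := by
  apply convex_H.isPreconnected.subset_of_closure_inter_subset isOpen_D
  · -- nonempty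
    refine ⟨F (6 * I), ?_, ⟨6 * I, by simp [H], rfl⟩⟩
    have : (6 * I : ℂ).im - 5 ≤ lev (6 * I) := le_lev (by simp) (by simp)
    have h2 := F_im (6 * I)
    change 0 < (F (6 * I)).im
    rw [h2]
    simp at this
    linarith
  · rintro w ⟨hw1, hw2⟩
    obtain ⟨δ, hδ, M, hM⟩ := proper (‖w‖ + 1)
    have hcl : IsClosed (F '' (K δ M)) :=
      ((isCompact_K δ M).image_of_continuousOn (continuousOn_F.mono (K_subset hδ))).isClosed
    have hw3 : w ∈ F '' (K δ M) := by
      rw [← hcl.closure_eq]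
      have h2 : {v : ℂ | ‖v‖ < ‖w‖ + 1} ∈ 𝓝 w := by
        apply (isOpen_lt continuous_norm continuous_const).mem_nhds
        simp
      rw [mem_closure_iff_nhds] at hw1 ⊢
      intro t ht
      obtain ⟨v, ⟨hv1, hv2⟩, z, hz, rfl⟩ := hw1 _ (inter_mem ht h2)
      refine ⟨F z, hv1, z, ⟨le_of_lt hz, hM z hz (le_of_lt hv2)⟩, rfl⟩
    obtain ⟨z, hz, hzw⟩ := hw3
    rcases hz.1.lt_or_eq with h | h
    · exact ⟨z, h, hzw⟩
    · exfalso
      have h1 := lev_neg h.symm (K_subset hδ hz).2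
      have h2 := F_im z
      rw [hzw] at h2
      have hw2' : 0 < w.im := hw2
      linarith

/-! ### Injectivity via level curves -/

/-- unit vector -/
noncomputable def e (t : ℝ) : ℂ := exp (t * I)

lemma e_re (t : ℝ) : (e t).re = Real.cos t := by simp [e, exp_ofReal_mul_I_re]
lemma e_im (t : ℝ) : (e t).im = Real.sin t := by simp [e, exp_ofReal_mul_I_im]
lemma norm_e (t : ℝ) : ‖e t‖ = 1 := norm_exp_ofReal_mul_I t
lemma continuous_e : Continuous e := by unfold e; fun_prop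

lemma ray_mem {ρ t : ℝ} (hρ : 0 < ρ) (ht : t ∈ Ioo 0 Real.pi) : (ρ : ℂ) * e t ∈ H := by
  change 0 < ((ρ : ℂ) * e t).im
  rw [im_ofReal_mul, e_im]
  exact mul_pos hρ (Real.sin_pos_of_mem_Ioo ht)

lemma norm_ray {ρ t : ℝ} (hρ : 0 < ρ) : ‖(ρ : ℂ) * e t‖ = ρ := by
  rw [norm_mul, norm_e, mul_one, norm_real, Real.norm_of_nonneg hρ.le]

lemma ray_aux {ρ₁ ρ₂ t c : ℝ} (h1 : 0 < ρ₁) (h12 : ρ₁ < ρ₂) (ht : t ∈ Ioo 0 Real.pi) (hc : 0 < c) :
    Real.log ρ₁ + Real.log ‖(ρ₂ : ℂ) * e t + c * I‖ ≤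
      Real.log ρ₂ + Real.log ‖(ρ₁ : ℂ) * e t + c * I‖ := by
  have hs := Real.sin_pos_of_mem_Ioo ht
  have h2 : 0 < ρ₂ := h1.trans h12
  have n1 : 0 < ‖(ρ₁ : ℂ) * e t + c * I‖ :=
    norm_pos_iff.2 (add_ne_zero_of_H (ray_mem h1 ht) hc.le)
  have n2 : 0 < ‖(ρ₂ : ℂ) * e t + c * I‖ :=
    norm_pos_iff.2 (add_ne_zero_of_H (ray_mem h2 ht) hc.le)
  rw [← Real.log_mul h1.ne' n2.ne', ← Real.log_mul h2.ne' n1.ne']
  apply Real.log_le_log (by positivity)
  rw [← sq_le_sq₀ (by positivity) (by positivity), mul_pow, mul_pow, ← normSq_eq_norm_sq,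
    ← normSq_eq_norm_sq, normSq_apply, normSq_apply]
  simp only [add_re, add_im, e_re, e_im, mul_re, mul_im, ofReal_re, ofReal_im, I_re, I_im]
  have k1 : ρ₁ ^ 2 ≤ ρ₂ ^ 2 := by gcongr
  have k2 : 0 ≤ c * ρ₁ * ρ₂ * Real.sin t * (ρ₂ - ρ₁) := by
    have : 0 < ρ₂ - ρ₁ := by linarith
    positivity
  nlinarith [mul_le_mul_of_nonneg_left k1 (sq_nonneg c)]

lemma lev_ray_lt {ρ₁ ρ₂ t : ℝ} (h1 : 0 < ρ₁) (h12 : ρ₁ < ρ₂) (ht : t ∈ Ioo 0 Real.pi) :
    lev (ρ₁ * e t) < lev (ρ₂ * e t) := by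
  have hs := Real.sin_pos_of_mem_Ioo ht
  have h2 : 0 < ρ₂ := h1.trans h12
  have a3 := ray_aux h1 h12 ht (c := 3) (by norm_num)
  have a1 := ray_aux h1 h12 ht (c := 1) (by norm_num)
  simp only [ofReal_one, one_mul, ofReal_ofNat] at a1 a3
  unfold lev
  rw [norm_ray h1, norm_ray h2, im_ofReal_mul, im_ofReal_mul, e_im]
  have := mul_lt_mul_of_pos_right h12 hs
  linarith

lemma continuousOn_lev_ray {t : ℝ} (ht : t ∈ Ioo 0 Real.pi) :
    ContinuousOn (fun ρ : ℝ => lev (ρ * e t)) (Ioi 0) := by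
  apply continuousOn_lev.comp (by fun_prop)
  intro ρ hρ
  exact ⟨le_of_lt (ray_mem hρ ht), ne_zero_of_H (ray_mem hρ ht)⟩

lemma exists_radius (y : ℝ) {t : ℝ} (ht : t ∈ Ioo 0 Real.pi) : ∃ ρ : ℝ, 0 < ρ ∧ lev (ρ * e t) = y := by
  have hs := Real.sin_pos_of_mem_Ioo ht
  -- small radius
  have hsmall : ∃ ρ ∈ Ioi (0 : ℝ), lev (ρ * e t) ≤ y := by
    refine ⟨min 1 (Real.exp ((y - 1) / 2)), by simp; positivity, ?_⟩
    set ρ := min 1 (Real.exp ((y - 1) / 2)) with hρ
    have hρ0 : 0 < ρ := by positivity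
    have h1 : ρ ≤ 1 := min_le_left _ _
    have h2 : Real.log ρ ≤ (y - 1) / 2 := by
      have := Real.log_le_log hρ0 (min_le_right 1 (Real.exp ((y - 1) / 2)))
      rwa [Real.log_exp] at this
    have h3 := lev_le (le_of_lt (ray_mem hρ0 ht))
    rw [norm_ray hρ0] at h3
    linarith
  have hlarge : ∃ ρ ∈ Ioi (0 : ℝ), y ≤ lev (ρ * e t) := by
    refine ⟨max 1 ((y + 5) / Real.sin t), by simp, ?_⟩
    set ρ := max 1 ((y + 5) / Real.sin t) with hρ
    have hρ0 : 0 < ρ := by positivity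
    have h3 := le_lev (le_of_lt (ray_mem hρ0 ht)) (by rw [norm_ray hρ0]; exact le_max_left _ _)
    rw [im_ofReal_mul, e_im] at h3
    have h4 : (y + 5) / Real.sin t ≤ ρ := le_max_right _ _
    rw [div_le_iff₀ hs] at h4
    linarith
  obtain ⟨ρ₁, hρ₁, h1⟩ := hsmall
  obtain ⟨ρ₂, hρ₂, h2⟩ := hlarge
  obtain ⟨ρ, hρ, h⟩ := isPreconnected_Ioi.intermediate_value hρ₁ hρ₂ (continuousOn_lev_ray ht)
    ⟨h1, h2⟩
  exact ⟨ρ, hρ, h⟩

lemma lev_ray_inj {ρ₁ ρ₂ t : ℝ} (h1 : 0 < ρ₁) (h2 : 0 < ρ₂) (ht : t ∈ Ioo 0 Real.pi)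
    (h : lev (ρ₁ * e t) = lev (ρ₂ * e t)) : ρ₁ = ρ₂ := by
  rcases lt_trichotomy ρ₁ ρ₂ with h' | h' | h'
  · exact absurd h (lev_ray_lt h1 h' ht).ne
  · exact h'
  · exact absurd h (lev_ray_lt h2 h' ht).ne'

lemma lev_ray_lt_iff {ρ₁ ρ₂ t : ℝ} (h1 : 0 < ρ₁) (h2 : 0 < ρ₂) (ht : t ∈ Ioo 0 Real.pi) :
    lev (ρ₁ * e t) < lev (ρ₂ * e t) ↔ ρ₁ < ρ₂ := by
  refine ⟨fun h => ?_, fun h => lev_ray_lt h1 h ht⟩
  by_contra hcon
  rcases (not_lt.1 hcon).lt_or_eq with h' | h'
  · exact absurd h (not_lt.2 (lev_ray_lt h2 h' ht).le)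
  · rw [h'] at h; exact lt_irrefl _ h

/-- the level curve of height `y` -/
noncomputable def rad (y t : ℝ) : ℝ := by
  classical exact if ht : t ∈ Ioo 0 Real.pi then (exists_radius y ht).choose else 1

lemma rad_pos (y t : ℝ) : 0 < rad y t := by
  unfold rad
  split_ifs with ht
  · exact (exists_radius y ht).choose_spec.1
  · exact one_pos

lemma lev_rad (y : ℝ) {t : ℝ} (ht : t ∈ Ioo 0 Real.pi) : lev (rad y t * e t) = y := by
  have : rad y t = (exists_radius y ht).choose := by simp [rad, ht]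
  rw [this]
  exact (exists_radius y ht).choose_spec.2

lemma continuousOn_rad (y : ℝ) : ContinuousOn (rad y) (Ioo 0 Real.pi) := by
  intro t₀ ht₀
  apply ContinuousAt.continuousWithinAt
  rw [ContinuousAt, tendsto_order]
  have hopen : ∀ᶠ t in 𝓝 t₀, t ∈ Ioo 0 Real.pi := isOpen_Ioo.mem_nhds ht₀
  have hc : ∀ a : ℝ, 0 < a → ContinuousAt (fun t => lev (a * e t)) t₀ := by
    intro a ha
    have h1 : ContinuousAt lev (a * e t₀) := by
      have hm : (a : ℂ) * e t₀ ∈ H := ray_mem ha ht₀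
      have h2 : H ⊆ {z | 0 ≤ z.im ∧ z ≠ 0} := fun z hz => ⟨le_of_lt hz, ne_zero_of_H hz⟩
      exact (continuousOn_lev.mono h2).continuousAt (isOpen_H.mem_nhds hm)
    have h3 : ContinuousAt (fun t => (a : ℂ) * e t) t₀ := by
      have := continuous_e
      fun_prop
    exact ContinuousAt.comp (g := lev) (f := fun t => (a : ℂ) * e t) h1 h3
  constructor
  · intro a ha
    by_cases ha0 : 0 < a
    · have h1 : lev (a * e t₀) < y := by
        rw [← lev_rad y ht₀]
        exact lev_ray_lt ha0 ha ht₀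
      filter_upwards [hopen, (hc a ha0).eventually (gt_mem_nhds h1)] with t ht h2
      rw [← lev_rad y ht] at h2
      exact (lev_ray_lt_iff ha0 (rad_pos y t) ht).1 h2
    · filter_upwards with t
      exact (not_lt.1 ha0).trans_lt (rad_pos y t)
  · intro a ha
    have ha0 : 0 < a := (rad_pos y t₀).trans ha
    have h1 : y < lev (a * e t₀) := by
      conv_lhs => rw [← lev_rad y ht₀]
      exact lev_ray_lt (rad_pos y t₀) ha ht₀
    filter_upwards [hopen, (hc a ha0).eventually (lt_mem_nhds h1)] with t ht h2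
    rw [← lev_rad y ht] at h2
    exact (lev_ray_lt_iff (rad_pos y t) ha0 ht).1 h2

/-- a continuous, locally injective function on an open interval is injective -/
lemma injOn_of_locally {f : ℝ → ℝ} {a b : ℝ} (hf : ContinuousOn f (Ioo a b))
    (hloc : ∀ t ∈ Ioo a b, ∃ ε > 0, InjOn f (Ioo (t - ε) (t + ε) ∩ Ioo a b)) :
    InjOn f (Ioo a b) := by
  -- wlog s < t
  have main : ∀ s ∈ Ioo a b, ∀ t ∈ Ioo a b, s < t → f s ≠ f t := by
    intro s hs t ht hst heq
    have hsub : Icc s t ⊆ Ioo a b := fun x hx => ⟨hs.1.trans_le hx.1, hx.2.trans_lt ht.2⟩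
    obtain ⟨c, hc, hext⟩ := exists_isLocalExtr_Ioo hst (hf.mono hsub) heq
    have hcab : c ∈ Ioo a b := hsub ⟨hc.1.le, hc.2.le⟩
    obtain ⟨ε, hε, hinj⟩ := hloc c hcab
    have hJ : Ioo (max (c - ε) a) (min (c + ε) b) ⊆ Ioo (c - ε) (c + ε) ∩ Ioo a b := by
      intro x hx
      exact ⟨⟨(le_max_left _ _).trans_lt hx.1, hx.2.trans_le (min_le_left _ _)⟩,
        ⟨(le_max_right _ _).trans_lt hx.1, hx.2.trans_le (min_le_right _ _)⟩⟩
    have hcJ : c ∈ Ioo (max (c - ε) a) (min (c + ε) b) := by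
      refine ⟨max_lt (by linarith) hcab.1, lt_min (by linarith) hcab.2⟩
    have hmono := ContinuousOn.strictMonoOn_of_injOn_Ioo (hcJ.1.trans hcJ.2)
      (hf.mono (hJ.trans inter_subset_right)) (hinj.mono hJ)
    have hnh : Ioo (max (c - ε) a) (min (c + ε) b) ∈ 𝓝 c := isOpen_Ioo.mem_nhds hcJ
    have hright : ∀ p : ℝ → Prop, (∀ᶠ x in 𝓝 c, p x) →
        ∃ x ∈ Ioo (max (c - ε) a) (min (c + ε) b), c < x ∧ p x := by
      intro p hp
      have h1 : ∀ᶠ x in 𝓝[>] c, p x ∧ x ∈ Ioo (max (c - ε) a) (min (c + ε) b) :=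
        (hp.and hnh).filter_mono nhdsWithin_le_nhds
      obtain ⟨x, hx1, hx2⟩ := (h1.and self_mem_nhdsWithin).exists
      exact ⟨x, hx1.2, hx2, hx1.1⟩
    have hleft : ∀ p : ℝ → Prop, (∀ᶠ x in 𝓝 c, p x) →
        ∃ x ∈ Ioo (max (c - ε) a) (min (c + ε) b), x < c ∧ p x := by
      intro p hp
      have h1 : ∀ᶠ x in 𝓝[<] c, p x ∧ x ∈ Ioo (max (c - ε) a) (min (c + ε) b) :=
        (hp.and hnh).filter_mono nhdsWithin_le_nhds
      obtain ⟨x, hx1, hx2⟩ := (h1.and self_mem_nhdsWithin).exists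
      exact ⟨x, hx1.2, hx2, hx1.1⟩
    rcases hext with hmin | hmax
    · rcases hmono with hm | hm
      · obtain ⟨x, hx, hxc, hp⟩ := hleft _ hmin
        exact absurd (hm hx hcJ hxc) (not_lt.2 hp)
      · obtain ⟨x, hx, hxc, hp⟩ := hright _ hmin
        exact absurd (hm hcJ hx hxc) (not_lt.2 hp)
    · rcases hmono with hm | hm
      · obtain ⟨x, hx, hxc, hp⟩ := hright _ hmax
        exact absurd (hm hcJ hx hxc) (not_lt.2 hp)
      · obtain ⟨x, hx, hxc, hp⟩ := hleft _ hmax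
        exact absurd (hm hx hcJ hxc) (not_lt.2 hp)
  intro s hs t ht heq
  rcases lt_trichotomy s t with h | h | h
  · exact absurd heq (main s hs t ht h)
  · exact h
  · exact absurd heq.symm (main t ht s hs h)

/-- the level curve -/
noncomputable def curve (y t : ℝ) : ℂ := (rad y t : ℂ) * e t

lemma arg_ray {ρ t : ℝ} (hρ : 0 < ρ) (ht : t ∈ Ioo 0 Real.pi) : arg ((ρ : ℂ) * e t) = t := by
  unfold e
  rw [arg_real_mul _ hρ, arg_exp_mul_I, toIocMod_eq_self]
  constructor <;> linarith [ht.1, ht.2, Real.pi_pos]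

lemma curve_mem (y : ℝ) {t : ℝ} (ht : t ∈ Ioo 0 Real.pi) : curve y t ∈ H := ray_mem (rad_pos y t) ht

lemma continuousOn_curve (y : ℝ) : ContinuousOn (curve y) (Ioo 0 Real.pi) := by
  unfold curve
  have h1 := continuousOn_rad y
  have h2 := continuous_e
  apply ContinuousOn.mul
  · exact continuous_ofReal.comp_continuousOn h1
  · exact h2.continuousOn

lemma F_inj : InjOn F H := by
  -- x is injective along level curves
  have hx : ∀ y : ℝ, InjOn (fun t => (F (curve y t)).re) (Ioo 0 Real.pi) := by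
    intro y
    apply injOn_of_locally
    · have h1 : ContinuousOn F H := continuousOn_F.mono fun z hz => ⟨le_of_lt hz, ne_zero_of_H hz⟩
      exact continuous_re.comp_continuousOn (h1.comp (continuousOn_curve y) fun t ht => curve_mem y ht)
    · intro t ht
      have hz := curve_mem y ht
      have hS := hasStrictFDerivAt_F hz
      set E := hS.toOpenPartialHomeomorph F with hE
      have hsrc : E.source ∈ 𝓝 (curve y t) :=
        E.open_source.mem_nhds hS.mem_toOpenPartialHomeomorph_source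
      have hc : ContinuousAt (curve y) t := (continuousOn_curve y).continuousAt (isOpen_Ioo.mem_nhds ht)
      obtain ⟨ε, hε, hball⟩ := Metric.eventually_nhds_iff_ball.1 (hc.eventually hsrc)
      refine ⟨ε, hε, ?_⟩
      rintro s ⟨hs1, hs2⟩ s' ⟨hs1', hs2'⟩ heq
      have hs : curve y s ∈ E.source := hball s (by rw [Real.ball_eq_Ioo]; exact hs1)
      have hs' : curve y s' ∈ E.source := hball s' (by rw [Real.ball_eq_Ioo]; exact hs1')
      have hFeq : F (curve y s) = F (curve y s') := by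
        apply Complex.ext heq
        rw [F_im, F_im, curve, curve, lev_rad y hs2, lev_rad y hs2']
      have := E.injOn hs hs' hFeq
      have h2 := congrArg arg this
      unfold curve at h2
      rwa [arg_ray (rad_pos y s) hs2, arg_ray (rad_pos y s') hs2'] at h2
  -- conclusion
  have hpolar : ∀ z ∈ H, arg z ∈ Ioo 0 Real.pi ∧ z = (‖z‖ : ℂ) * e (arg z) ∧ 0 < ‖z‖ := by
    intro z hz
    have hz' : 0 < z.im := hz
    refine ⟨⟨?_, ?_⟩, ?_, norm_pos_iff.2 (ne_zero_of_H hz)⟩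
    · have := arg_nonneg_iff.2 hz'.le
      rcases this.lt_or_eq with h | h
      · exact h
      · exfalso
        have := arg_eq_zero_iff.1 h.symm
        linarith [this.2]
    · rw [lt_iff_le_and_ne]
      refine ⟨arg_le_pi z, ?_⟩
      intro h
      have := arg_eq_pi_iff.1 h
      linarith [this.2]
    · exact (norm_mul_exp_arg_mul_I z).symm
  intro z₁ h₁ z₂ h₂ heq
  obtain ⟨t1, p1, n1⟩ := hpolar z₁ h₁
  obtain ⟨t2, p2, n2⟩ := hpolar z₂ h₂
  set y := lev z₁ with hy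
  have hy2 : lev z₂ = y := by
    have := congrArg Complex.im heq
    rw [F_im, F_im] at this
    linarith
  have c1 : curve y (arg z₁) = z₁ := by
    rw [curve]
    conv_rhs => rw [p1]
    congr 2
    apply lev_ray_inj (rad_pos _ _) n1 t1
    rw [lev_rad y t1, ← p1]
  have c2 : curve y (arg z₂) = z₂ := by
    rw [curve]
    conv_rhs => rw [p2]
    congr 2
    apply lev_ray_inj (rad_pos _ _) n2 t2
    rw [lev_rad y t2, ← p2, hy2]
  have harg : arg z₁ = arg z₂ := by
    apply hx y t1 t2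
    simp only [c1, c2, heq]
  rw [← c1, ← c2, harg]

/-! ### Growth -/

lemma contDiffAt_u {w : ℂ} (hw : w ∈ D) : ContDiffAt ℝ 3 u w := by
  refine ContDiffAt.congr_of_eventuallyEq ?_ (u_eventually hw)
  obtain ⟨z, hz, rfl⟩ := hw
  have h1 : ContDiffAt ℝ 3 Phi (g (F z)) := by
    rw [g_F F_inj hz]
    have : ContDiffAt ℂ 3 Phi z := contDiffAt_id.sub (contDiffAt_inv ℂ (ne_zero_of_H hz))
    exact this.restrict_scalars ℝ
  have h2 := h1.comp (F z) (contDiffAt_g F_inj hz)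
  exact imCLM.contDiff.contDiffAt.comp (F z) h2

lemma u_F {z : ℂ} (hz : z ∈ H) : u (F z) = (Phi z).im := by
  have : F z ∈ D := ⟨z, hz, rfl⟩
  simp [u, this, g_F F_inj hz]

lemma growth {r : ℝ} (hr : 20 ≤ r) : ∃ w ∈ D, ‖w‖ = r ∧ Real.exp (r / 4) ≤ u w := by
  have hpi : Real.pi / 2 ∈ Ioo 0 Real.pi := ⟨by positivity, by linarith [Real.pi_pos]⟩
  obtain ⟨η, hη, hlev⟩ := exists_radius (-(3/4) * r) hpi
  have he : e (Real.pi / 2) = I := by
    unfold e
    push_cast
    exact exp_pi_div_two_mul_I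
  rw [he] at hlev
  have hmem : (η : ℂ) * I ∈ H := by
    have := ray_mem hη hpi
    rwa [he] at this
  have him : (F ((η : ℂ) * I)).im = -r := by
    rw [F_im, hlev]; ring
  have hre : (F ((η : ℂ) * I)).re = 0 := by
    rw [F_re]
    have a1 : arg ((η : ℂ) * I + 3 * I) = Real.pi / 2 := by
      have : (η : ℂ) * I + 3 * I = ((η + 3 : ℝ) : ℂ) * I := by push_cast; ring
      rw [this, arg_real_mul _ (by positivity), arg_I]
    have a2 : arg ((η : ℂ) * I + I) = Real.pi / 2 := by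
      have : (η : ℂ) * I + I = ((η + 1 : ℝ) : ℂ) * I := by push_cast; ring
      rw [this, arg_real_mul _ (by positivity), arg_I]
    rw [a1, a2]
    simp
  refine ⟨F ((η : ℂ) * I), ⟨_, hmem, rfl⟩, ?_, ?_⟩
  · have : F ((η : ℂ) * I) = ((-r : ℝ) : ℂ) * I := by
      apply Complex.ext
      · rw [hre]; simp
      · rw [him]; simp
    rw [this, norm_mul, norm_real, norm_I, mul_one, norm_neg, Real.norm_of_nonneg (by linarith)]
  · rw [u_F hmem, im_Phi]
    have e1 : ‖(η : ℂ) * I‖ = η := by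
      rw [norm_mul, norm_real, norm_I, mul_one, Real.norm_of_nonneg hη.le]
    have e3 : ‖(η : ℂ) * I + 3 * I‖ = η + 3 := by
      have : (η : ℂ) * I + 3 * I = ((η + 3 : ℝ) : ℂ) * I := by push_cast; ring
      rw [this, norm_mul, norm_real, norm_I, mul_one, Real.norm_of_nonneg (by positivity)]
    have e2 : ‖(η : ℂ) * I + I‖ = η + 1 := by
      have : (η : ℂ) * I + I = ((η + 1 : ℝ) : ℂ) * I := by push_cast; ring
      rw [this, norm_mul, norm_real, norm_I, mul_one, Real.norm_of_nonneg (by positivity)]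
    have him2 : ((η : ℂ) * I).im = η := by simp
    have hns : normSq ((η : ℂ) * I) = η ^ 2 := by rw [normSq_eq_norm_sq, e1]
    unfold lev at hlev
    rw [e1, e3, e2, him2] at hlev
    rw [him2, hns]
    -- log bounds
    have l1 : Real.log (η + 3) ≤ 5 + ((η + 3) / 6 - 1) := by
      have : η + 3 = 6 * ((η + 3) / 6) := by ring
      rw [this, Real.log_mul (by norm_num) (by positivity), ← this]
      have b1 := Real.log_le_sub_one_of_pos (show (0 : ℝ) < 6 by norm_num)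
      have b2 := Real.log_le_sub_one_of_pos (show (0 : ℝ) < (η + 3) / 6 by positivity)
      linarith
    have l2 : Real.log (η + 1) ≤ 1 + ((η + 1) / 2 - 1) := by
      have : η + 1 = 2 * ((η + 1) / 2) := by ring
      rw [this, Real.log_mul (by norm_num) (by positivity), ← this]
      have b1 := Real.log_le_sub_one_of_pos (show (0 : ℝ) < 2 by norm_num)
      have b2 := Real.log_le_sub_one_of_pos (show (0 : ℝ) < (η + 1) / 2 by positivity)
      linarith
    have l3 : r / 4 ≤ Real.log (η⁻¹) := by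
      rw [Real.log_inv]
      linarith
    calc Real.exp (r / 4) ≤ Real.exp (Real.log η⁻¹) := Real.exp_le_exp.2 l3
      _ = η⁻¹ := Real.exp_log (by positivity)
      _ ≤ η + η / η ^ 2 := by
        have : η / η ^ 2 = η⁻¹ := by field_simp
        rw [this]; linarith

lemma growth_max {r : ℝ} (hr : 20 ≤ r) : ((Real.exp (r / 4) : ℝ) : EReal) ≤ maxOnCircle D u r := by
  obtain ⟨w, hw, hn, hle⟩ := growth hr
  refine le_trans (EReal.coe_le_coe_iff.2 hle) ?_
  exact le_sSup ⟨w, ⟨hw, hn⟩, rfl⟩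

/-- **Main theorem.** There are a plane domain `D` containing a half-plane and a solution `u` of
`(∗)` on `D` with `limsup M(r)/r = ∞`; in fact `M(r) ≥ exp (r/4)` for all `r ≥ 20`. -/
theorem result : ∃ (D : Set ℂ) (u : ℂ → ℝ),
    IsUnboundedDomain D ∧ ContainsHalfPlane D ∧ IsSolution D u ∧
    (∀ r : ℝ, 20 ≤ r → ((Real.exp (r / 4) : ℝ) : EReal) ≤ maxOnCircle D u r) ∧
    Filter.limsup (fun r : ℝ => maxOnCircle D u r / (r : EReal)) atTop = ⊤ := by
  refine ⟨D, u, ⟨isOpen_D, convex_F_image, ?_⟩, ⟨-(Real.pi / 2), 0, ?_⟩,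
    ⟨fun w hw => (contDiffAt_u hw).contDiffWithinAt.of_le (by norm_num), ?_,
      fun w hw => minimal_u F_inj hw, ?_, ?_⟩, fun r hr => growth_max hr, ?_⟩
  · intro hb
    rw [isBounded_iff_forall_norm_le] at hb
    obtain ⟨C, hC⟩ := hb
    have h1 : ((|C| + 1 : ℝ) : ℂ) * I ∈ D := by
      apply halfplane_subset
      change 0 < (((|C| + 1 : ℝ) : ℂ) * I).im
      rw [im_ofReal_mul, I_im, mul_one]
      positivity
    have h2 := hC _ h1
    rw [norm_mul, norm_real, norm_I, mul_one, Real.norm_of_nonneg (by positivity)] at h2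
    linarith [le_abs_self C]
  · intro z hz
    apply halfplane_subset
    have h1 : Complex.exp ((-(Real.pi / 2) : ℝ) * I) = -I := by
      push_cast
      rw [neg_mul, Complex.exp_neg, exp_pi_div_two_mul_I, inv_I]
    have hz' : 0 < (Complex.exp ((-(Real.pi / 2) : ℝ) * I) * z).re := hz
    rw [h1] at hz'
    change 0 < z.im
    simpa using hz'
  · intro w _
    apply ContinuousAt.continuousWithinAt
    by_cases hw : w ∈ D
    · exact (contDiffAt_u hw).continuousAt
    · exact continuous_u_off hw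
  · rintro w ⟨z, hz, rfl⟩
    rw [u_F hz]
    exact im_Phi_pos hz
  · intro w hw
    have : w ∉ D := by
      rw [isOpen_D.frontier_eq] at hw
      exact hw.2
    simp [u, this]
  · apply Tendsto.limsup_eq
    rw [EReal.tendsto_nhds_top_iff_real]
    intro x
    filter_upwards [eventually_ge_atTop (20 : ℝ), eventually_gt_atTop (32 * |x|)] with r hr hrx
    have h1 : ((Real.exp (r / 4) / r : ℝ) : EReal) ≤ maxOnCircle D u r / (r : EReal) := by
      rw [EReal.coe_div]
      apply EReal.div_le_div_right_of_nonneg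
      · exact_mod_cast (by linarith : (0 : ℝ) ≤ r)
      · exact growth_max hr
    refine lt_of_lt_of_le ?_ h1
    rw [EReal.coe_lt_coe_iff, lt_div_iff₀ (by linarith)]
    have h2 := Real.quadratic_le_exp_of_nonneg (x := r / 4) (by linarith)
    have h3 : x ≤ |x| := le_abs_self x
    nlinarith

end Pool.Agent.Results.MP_dd07a5_an.TwoEndedGraph
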